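import Pool.Agent.Lib.MP_b02441_al.Defs
import Pool.Agent.Lib.MP_b02441_al.Fin

/-!
# MP_b02441_al: classification of the locally finite varieties whose finitely generated free
semigroups are separated by identical inclusions
-/

set_option autoImplicit false

namespace Pool.Agent.Results.MP_b02441_al.LocallyFiniteCase

open Pool.Agent.Lib.MP_b02441_al

/-- Let `V` be a locally finite semigroup variety, defined by the set `E` of identities. The free
semigroups `F_1(V), F_2(V), …` are separated by identical inclusions if and only if `V` fails
`NS1` (for some `m`, `x_0 ⋯ x_m x_{m+1} x_0 ⋯ x_m = x_0 ⋯ x_m` is an identity of `V`) or fails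
`NS2` (if `w w` does not depend on two letters, and identifying these letters turns `w` into an
idempotent word, then `w` is idempotent). -/
theorem result (E : Set (Word × Word)) (hE : LocallyFinite E) :
    Separated E ↔ ¬ (NS1 E ∧ NS2 E) :=
  separated_iff_of_locallyFinite hE

end Pool.Agent.Results.MP_b02441_al.LocallyFiniteCase
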