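import Pool.Agent.Lib.MP_b02441_al.SqC

/-!
# MP_b02441_al: varieties defined by identities between locked words
-/

set_option autoImplicit false

namespace Pool.Agent.Results.MP_b02441_al.LockedWords

open Pool.Agent.Lib.MP_b02441_al

/-- Let `V` be the variety defined by a set `E` of identities and the identities `w = 0`
(`w ∈ Z`). Assume that the words `w ∈ Z` are locked, and that every identity in `E` is an identity
between two locked words with the same letters or an identity `x ^ a = x ^ b` in one letter. Then
the free semigroups `F_1(V), F_2(V), …` are separated by identical inclusions if and only if `Z`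
is empty and `x = x ^ (1 + d)` follows from `E` for some `d ≥ 1`. If they are not separated, then
`F_m(V)` and `F_n(V)` are inclusively equivalent for all `m, n ≥ 10`. -/
theorem result (E : Set (Word × Word)) (Z : Set Word)
    (hE : ∀ e ∈ E, (Locked e.1 ∧ Locked e.2 ∧ SameLetters e.1 e.2) ∨
      ∃ a b : ℕ, e = (powWord a, powWord b))
    (hZ : ∀ w ∈ Z, Locked w) :
    (Separated (withZeros E Z) ↔
      Z = ∅ ∧ ∃ d : ℕ, 1 ≤ d ∧ Holds E (powWord 0) (powWord d)) ∧
    (¬ Separated (withZeros E Z) → ∀ m n : ℕ, 10 ≤ m → 10 ≤ n →
      InclEquiv (Fr (withZeros E Z) m) (Fr (withZeros E Z) n)) :=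
  separated_sq_iff hE hZ

end Pool.Agent.Results.MP_b02441_al.LockedWords
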