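import Pool.Agent.Lib.MP_b02441_al.BrA

/-!
# MP_b02441_al: periodic varieties containing the semilattices, without the Brandt semigroup or
with bounded chains of idempotents
-/

set_option autoImplicit false

namespace Pool.Agent.Results.MP_b02441_al.PeriodicWithoutBrandt

open Pool.Agent.Lib.MP_b02441_al

/-- Let `V` be a periodic semigroup variety, defined by the set `E` of identities, which contains
all semilattices. Assume that `V` does not contain the five-element Brandt semigroup `B2`, or more
generally that for every `n` the lengths of the chains of idempotents of `F_n(V)` are bounded. Then
the free semigroups `F_1(V), F_2(V), …` are separated by identical inclusions. -/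
theorem result (E : Set (Word × Word)) (hP : Periodic E) (hL : ContainsSemilattices E)
    (hB : ¬ Mem E B2 ∨ ∀ n : ℕ, 1 ≤ n → ∃ K : ℕ, ChainBound (Fr E n) K) : Separated E :=
  hB.elim (fun h => separated_of_not_B2 hP hL h) fun h => separated_of_chainBound hP hL h

end Pool.Agent.Results.MP_b02441_al.PeriodicWithoutBrandt
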