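import Pool.Agent.Lib.MP_b02441_al.U.Fin
import Pool.Agent.Lib.MP_b02441_al.U.CompP
import Pool.Agent.Lib.MP_b02441_al.U.Src

/-!
# MP_b02441_al: it is undecidable whether a finitely based variety is separated
-/

set_option autoImplicit false

namespace Pool.Agent.Results.MP_b02441_al.Undecidable

open Pool.Agent.Lib.MP_b02441_al

/-- There are a finite list `B` of semigroup identities and a computable function `f` which maps
every program `c` to a list `f c` consisting of `B` and four further identities, such that for the
variety `V` defined by `f c` (only the letters `x_0, x_1, x_2, x_3` occur in `f c`, and all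
semigroups in `V` are nil semigroups, with `x ^ (k + 1) = 0` for some `k`):

* if `c` does not halt on input `0`, then `F_1(V), F_2(V), …` are separated by identical
  inclusions;
* if `c` halts on input `0`, then `F_m(V)` and `F_n(V)` are inclusively equivalent for all
  `m, n ≥ 10`.

Hence no algorithm decides for a finite list of identities whether `F_1(V), F_2(V), …` are
separated, the set of the finite lists with this property is not even recursively enumerable, and
for `10 ≤ m < n` the set of the finite lists for which `F_m(V)` and `F_n(V)` are distinguished by an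
identical inclusion is not recursively enumerable. -/
theorem result :
    (∃ (B : List Ident) (f : Nat.Partrec.Code → List Ident), Computable f ∧
      ∀ c : Nat.Partrec.Code,
        (∃ A : List Ident, A.length = 4 ∧ f c = B ++ A) ∧ FourLetters (f c) ∧ NilVar (f c) ∧
        (¬ (c.eval 0).Dom → Separated (idSet (f c))) ∧
        ((c.eval 0).Dom → ∀ m n : ℕ, 10 ≤ m → 10 ≤ n →
          InclEquiv (Fr (idSet (f c)) m) (Fr (idSet (f c)) n))) ∧
    (¬ ComputablePred fun L : List Ident => Separated (idSet L)) ∧
    (¬ REPred fun L : List Ident => Separated (idSet L)) ∧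
    (∀ m n : ℕ, 10 ≤ m → m < n →
      ¬ REPred fun L : List Ident => ¬ InclEquiv (Fr (idSet L) m) (Fr (idSet L) n)) := by
  have hred := U.reduction_of U.primrec_blk U.primrec_start U.src
  have hund := U.undecidable_of U.primrec_blk U.primrec_start U.src
  refine ⟨hred, hund.1, hund.2, fun m n hm hmn hR => ?_⟩
  obtain ⟨B, f, hf, h⟩ := hred
  refine ComputablePred.halting_problem_not_re 0 ?_
  have h1 : REPred fun c : Nat.Partrec.Code =>
      ¬ InclEquiv (Fr (idSet (f c)) m) (Fr (idSet (f c)) n) := Partrec.comp hR hf
  refine h1.of_eq fun c => ?_
  obtain ⟨-, -, -, h2, h3⟩ := h c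
  refine ⟨fun hn hd => hn (h3 hd m n hm (by omega)), fun hd => ?_⟩
  exact h2 hd m n (by omega) (by omega) (by omega)

end Pool.Agent.Results.MP_b02441_al.Undecidable
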